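import Pool.Agent.H17.RX.Stm

/-!
# Crew RX, part AVG
-/

set_option autoImplicit false
open Filter Topology MeasureTheory
open scoped ComplexConjugate ENNReal

namespace Pool.Agent.H61.RX
open Pool.Agent.H17.RX

lemma quad {n s : ℕ} (τ : Equiv.Perm (Fin (n * s))) (x : Fin (n * s) → ℂ) :
    ((∑ c : Fin n, ‖∑ b with cl τ b = c, x b‖ ^ 2 : ℝ) : ℂ) =
      ∑ b, ∑ b', if cl τ b = cl τ b' then x b * conj (x b') else 0 := by
  push_cast
  have h1 : ∀ c : Fin n, ((‖∑ b with cl τ b = c, x b‖ : ℂ)) ^ 2 =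
      ∑ b, ∑ b', (if cl τ b = c then x b else 0) * (if cl τ b' = c then conj (x b') else 0) := by
    intro c
    rw [← Complex.mul_conj', map_sum, Finset.sum_filter, Finset.sum_filter, Finset.sum_mul_sum]
  simp only [h1]
  rw [Finset.sum_comm]
  refine Finset.sum_congr rfl fun b _ => ?_
  rw [Finset.sum_comm]
  refine Finset.sum_congr rfl fun b' _ => ?_
  simp only [ite_mul, zero_mul, Finset.sum_ite_eq, Finset.mem_univ, if_true, mul_ite, mul_zero]

lemma exists_perm {m : ℕ} (b b' c c' : Fin m) (hb : b ≠ b') (hc : c ≠ c') :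
    ∃ ρ : Equiv.Perm (Fin m), ρ b = c ∧ ρ b' = c' := by
  refine ⟨Equiv.swap (Equiv.swap b c b') c' * Equiv.swap b c, ?_, ?_⟩
  · rw [Equiv.Perm.mul_apply, Equiv.swap_apply_left]
    apply Equiv.swap_apply_of_ne_of_ne
    · intro h
      have h1 : Equiv.swap b c b = Equiv.swap b c b' := by rw [Equiv.swap_apply_left]; exact h
      exact hb ((Equiv.swap b c).injective h1)
    · exact hc
  · rw [Equiv.Perm.mul_apply, Equiv.swap_apply_left]

lemma exists_K (n s : ℕ) : ∃ K : ℝ, 0 ≤ K ∧ ∀ b b' : Fin (n * s), b ≠ b' →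
    (((Finset.univ.filter fun τ : Equiv.Perm (Fin (n * s)) => cl τ b = cl τ b').card : ℕ) : ℝ) =
      K := by
  by_cases h : ∃ b b' : Fin (n * s), b ≠ b'
  · obtain ⟨b, b', hb⟩ := h
    refine ⟨((Finset.univ.filter fun τ : Equiv.Perm (Fin (n * s)) => cl τ b = cl τ b').card : ℕ),
      Nat.cast_nonneg _, ?_⟩
    intro c c' hc
    obtain ⟨ρ, h1, h2⟩ := exists_perm b b' c c' hb hc
    congr 1
    refine Finset.card_bij (fun τ _ => τ * ρ) ?_ ?_ ?_
    · intro τ hτ
      simp only [Finset.mem_filter, Finset.mem_univ, true_and] at hτ ⊢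
      simpa [cl, h1, h2] using hτ
    · intro τ _ τ' _ h
      exact mul_right_cancel h
    · intro τ hτ
      refine ⟨τ * ρ⁻¹, ?_, by simp⟩
      simp only [Finset.mem_filter, Finset.mem_univ, true_and] at hτ ⊢
      have h3 : ρ⁻¹ c = b := by rw [← h1]; simp
      have h4 : ρ⁻¹ c' = b' := by rw [← h2]; simp
      show (finProdFinEquiv.symm (τ (ρ⁻¹ c))).1 = (finProdFinEquiv.symm (τ (ρ⁻¹ c'))).1
      rw [h3, h4]
      exact hτ
  · push Not at h
    exact ⟨0, le_rfl, fun b b' hb => absurd (h b b') hb⟩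

theorem t_AVG : S_AVG := by
  intro n s x hx
  obtain ⟨K, hK, hKe⟩ := exists_K n s
  have h1 : ((∑ τ : Equiv.Perm (Fin (n * s)), ∑ c : Fin n, ‖∑ b with cl τ b = c, x b‖ ^ 2 : ℝ) : ℂ) =
      ((((n * s).factorial : ℝ) - K) * ∑ b, ‖x b‖ ^ 2 : ℝ) := by
    rw [Complex.ofReal_sum]
    simp only [quad]
    rw [Finset.sum_comm]
    have h2 : ∀ b, ∑ τ : Equiv.Perm (Fin (n * s)), ∑ b', (if cl τ b = cl τ b' then
        x b * conj (x b') else 0) = (K : ℂ) * (x b * conj (∑ b', x b')) +
        ((((n * s).factorial : ℝ) - K : ℝ) : ℂ) * (x b * conj (x b)) := by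
      intro b
      rw [Finset.sum_comm]
      have h3 : ∀ b', ∑ τ : Equiv.Perm (Fin (n * s)), (if cl τ b = cl τ b' then
          x b * conj (x b') else 0) = (K : ℂ) * (x b * conj (x b')) +
          (if b = b' then ((((n * s).factorial : ℝ) - K : ℝ) : ℂ) * (x b * conj (x b')) else 0) := by
        intro b'
        rw [← Finset.sum_filter, Finset.sum_const, nsmul_eq_mul]
        by_cases h : b = b'
        · subst h
          rw [if_pos rfl]
          have h4 : (Finset.univ.filter fun τ : Equiv.Perm (Fin (n * s)) =>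
              cl τ b = cl τ b).card = (n * s).factorial := by
            simp [Finset.card_univ, Fintype.card_perm]
          rw [h4]
          push_cast
          ring
        · rw [if_neg h, add_zero]
          have h5 := hKe b b' h
          have h6 : (((Finset.univ.filter fun τ : Equiv.Perm (Fin (n * s)) =>
              cl τ b = cl τ b').card : ℕ) : ℂ) = (K : ℂ) := by
            rw [← h5]; push_cast; rfl
          rw [h6]
      simp only [h3]
      rw [Finset.sum_add_distrib, ← Finset.mul_sum, ← Finset.mul_sum, map_sum,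
        Finset.sum_ite_eq, if_pos (Finset.mem_univ _)]
    simp only [h2]
    rw [hx, map_zero]
    simp only [mul_zero, zero_add]
    rw [← Finset.mul_sum]
    push_cast
    congr 1
    refine Finset.sum_congr rfl fun b _ => ?_
    rw [Complex.mul_conj']
  have h2 := Complex.ofReal_injective h1
  rw [h2]
  have h3 : 0 ≤ ∑ b, ‖x b‖ ^ 2 := Finset.sum_nonneg fun b _ => by positivity
  nlinarith

end Pool.Agent.H61.RX
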