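import Pool.Agent.H17.RX.Stm

/-!
# Crew RX, part ST1
-/

set_option autoImplicit false
open Filter Topology MeasureTheory
open scoped ComplexConjugate ENNReal

namespace Pool.Agent.H61.RX
open Pool.Agent.H17.RX

lemma chi_add (a b : ZMod 4) : chi (a + b) = chi a * chi b := by
  unfold chi
  rw [← pow_add, ZMod.val_add, ← pow_eq_pow_mod _ Complex.I_pow_four]

lemma norm_chi (a : ZMod 4) : ‖chi a‖ = 1 := by
  unfold chi
  rw [norm_pow, Complex.norm_I, one_pow]

lemma conj_chi_mul (a : ZMod 4) : conj (chi a) * chi a = 1 := by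
  rw [Complex.conj_mul', norm_chi]
  simp

lemma card_cl {n s : ℕ} (τ : Equiv.Perm (Fin (n * s))) (c : Fin n) :
    (Finset.univ.filter fun b => cl τ b = c).card = s := by
  have h1 : (Finset.univ.filter fun b => cl τ b = c).card =
      ((Finset.univ : Finset (Fin s))).card := by
    symm
    refine Finset.card_bij (fun i _ => τ.symm (finProdFinEquiv (c, i))) ?_ ?_ ?_
    · intro i _
      rw [Finset.mem_filter]
      refine ⟨Finset.mem_univ _, ?_⟩
      show (finProdFinEquiv.symm (τ (τ.symm (finProdFinEquiv (c, i))))).1 = c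
      rw [Equiv.apply_symm_apply, Equiv.symm_apply_apply]
    · intro i _ j _ h
      simpa using h
    · intro b hb
      simp only [Finset.mem_filter, Finset.mem_univ, true_and] at hb
      refine ⟨(finProdFinEquiv.symm (τ b)).2, Finset.mem_univ _, ?_⟩
      have h2 : (c, (finProdFinEquiv.symm (τ b)).2) = finProdFinEquiv.symm (τ b) := by
        rw [← hb]; rfl
      show τ.symm (finProdFinEquiv (c, (finProdFinEquiv.symm (τ b)).2)) = b
      rw [h2, Equiv.apply_symm_apply, Equiv.symm_apply_apply]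
  rw [h1, Finset.card_univ, Fintype.card_fin]

/-- coefficients of the coarse vectors -/
noncomputable def lc {n s : ℕ} (τ : Equiv.Perm (Fin (n * s))) (σ : Th (n * s)) (c : Fin n)
    (b : Fin (n * s)) : ℂ :=
  if cl τ b = c then ((Real.sqrt s : ℝ) : ℂ)⁻¹ * chi (σ b) else 0

lemma cu_eq {d n s : ℕ} (u : Fin (n * s) → F d) (τ : Equiv.Perm (Fin (n * s)))
    (σ : Th (n * s)) (c : Fin n) : cu u τ σ c = ∑ b, lc τ σ c b • u b := by
  unfold cu lc
  rw [Finset.smul_sum, Finset.sum_filter]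
  refine Finset.sum_congr rfl fun b _ => ?_
  by_cases h : cl τ b = c
  · rw [if_pos h, if_pos h, smul_smul]
  · rw [if_neg h, if_neg h, zero_smul]

lemma cu_on {d n s : ℕ} (hs : 1 ≤ s) (u : Fin (n * s) → F d) (hu : Orthonormal ℂ u)
    (τ : Equiv.Perm (Fin (n * s))) (σ : Th (n * s)) : Orthonormal ℂ (cu u τ σ) := by
  rw [orthonormal_iff_ite]
  intro c c'
  rw [cu_eq, cu_eq, hu.inner_sum]
  have hs0 : (0 : ℝ) < s := by exact_mod_cast hs
  by_cases h : c = c'
  · subst h
    rw [if_pos rfl]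
    have h1 : ∀ b, conj (lc τ σ c b) * lc τ σ c b = if cl τ b = c then ((s : ℝ) : ℂ)⁻¹ else 0 := by
      intro b
      unfold lc
      by_cases hb : cl τ b = c
      · rw [if_pos hb, if_pos hb, map_mul, map_inv₀, Complex.conj_ofReal]
        have h2 : ((Real.sqrt s : ℝ) : ℂ)⁻¹ * conj (chi (σ b)) *
            (((Real.sqrt s : ℝ) : ℂ)⁻¹ * chi (σ b)) =
            (((Real.sqrt s : ℝ) : ℂ) * ((Real.sqrt s : ℝ) : ℂ))⁻¹ * (conj (chi (σ b)) * chi (σ b)) := by
          rw [mul_inv]; ring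
        rw [h2, conj_chi_mul, mul_one, ← Complex.ofReal_mul, Real.mul_self_sqrt hs0.le]
      · rw [if_neg hb, if_neg hb, mul_zero]
    simp only [h1]
    rw [← Finset.sum_filter, Finset.sum_const, card_cl, nsmul_eq_mul]
    have h3 : ((s : ℝ) : ℂ) ≠ 0 := by exact_mod_cast hs0.ne'
    push_cast at h3 ⊢
    exact mul_inv_cancel₀ h3
  · rw [if_neg h]
    apply Finset.sum_eq_zero
    intro b _
    unfold lc
    by_cases hb : cl τ b = c
    · have hb' : cl τ b ≠ c' := fun h' => h (hb.symm.trans h')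
      rw [if_neg hb', mul_zero]
    · rw [if_neg hb, map_zero, zero_mul]

lemma norm_pr {d n : ℕ} (u : Fin n → F d) (hu : Orthonormal ℂ u) (x : F d) :
    ‖pr u x‖ ^ 2 = ∑ c, ‖(inner ℂ (u c) x : ℂ)‖ ^ 2 := by
  have h1 : ((‖pr u x‖ ^ 2 : ℝ) : ℂ) = ((∑ c, ‖(inner ℂ (u c) x : ℂ)‖ ^ 2 : ℝ) : ℂ) := by
    have h2 := inner_self_eq_norm_sq_to_K (𝕜 := ℂ) (pr u x)
    have h3 : (inner ℂ (pr u x) (pr u x) : ℂ) =
        ∑ c, conj (inner ℂ (u c) x : ℂ) * (inner ℂ (u c) x : ℂ) := by
      unfold pr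
      rw [hu.inner_sum]
    rw [h3] at h2
    push_cast
    have h4 : ((‖pr u x‖ : ℝ) : ℂ) ^ 2 = ∑ c, conj (inner ℂ (u c) x : ℂ) * (inner ℂ (u c) x : ℂ) :=
      h2.symm
    rw [h4]
    refine Finset.sum_congr rfl fun c _ => ?_
    rw [Complex.conj_mul']
  exact Complex.ofReal_injective h1

theorem t_ST1 : S_ST1 := by
  intro d n s hn hs u f hsys τ σ
  have hs0 : (0 : ℝ) < s := by exact_mod_cast hs
  have hn0 : (0 : ℝ) < n := by exact_mod_cast hn
  have hon := cu_on hs u hsys.on τ σ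
  refine ⟨⟨hon, ?_⟩, ?_⟩
  · intro θ
    show zz (f (cg τ σ θ)) = _
    rw [hsys.vec]
    unfold cu
    have h1 : ∀ c : Fin n, chi (θ c) • (((Real.sqrt s : ℝ) : ℂ)⁻¹ •
        ∑ b with cl τ b = c, chi (σ b) • u b) = ((Real.sqrt s : ℝ) : ℂ)⁻¹ •
        ∑ b with cl τ b = c, chi (cg τ σ θ b) • u b := by
      intro c
      rw [smul_comm, Finset.smul_sum]
      congr 1
      refine Finset.sum_congr rfl fun b hb => ?_
      rw [Finset.mem_filter] at hb
      rw [smul_smul, ← chi_add]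
      unfold cg
      rw [hb.2]
    simp only [h1]
    have h2 : ∑ c : Fin n, ∑ b with cl τ b = c, chi (cg τ σ θ b) • u b =
        ∑ b, chi (cg τ σ θ b) • u b :=
      Finset.sum_fiberwise Finset.univ (fun b => cl τ b) (fun b => chi (cg τ σ θ b) • u b)
    have h3 : ∑ c : Fin n, ((Real.sqrt s : ℝ) : ℂ)⁻¹ • ∑ b with cl τ b = c,
        chi (cg τ σ θ b) • u b = ((Real.sqrt s : ℝ) : ℂ)⁻¹ • ∑ c : Fin n,
        ∑ b with cl τ b = c, chi (cg τ σ θ b) • u b := by
      rw [Finset.smul_sum]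
    rw [h3, h2, smul_smul]
    congr 1
    rw [← mul_inv, ← Complex.ofReal_mul, ← Real.sqrt_mul (by positivity)]
    push_cast
    rfl
  · intro θ x
    rw [norm_pr _ hon, Finset.mul_sum]
    refine Finset.sum_congr rfl fun c _ => ?_
    have h1 : (inner ℂ (cu u τ σ c) x : ℂ) = ((Real.sqrt s : ℝ) : ℂ)⁻¹ *
        (chi (θ c) * ∑ b with cl τ b = c, conj (chi (cg τ σ θ b)) * inner ℂ (u b) x) := by
      unfold cu
      rw [inner_smul_left, map_inv₀, Complex.conj_ofReal, sum_inner]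
      congr 1
      rw [Finset.mul_sum]
      refine Finset.sum_congr rfl fun b hb => ?_
      rw [Finset.mem_filter] at hb
      rw [inner_smul_left]
      unfold cg
      rw [hb.2, chi_add, map_mul]
      have h2 : chi (θ c) * (conj (chi (θ c)) * conj (chi (σ b)) * inner ℂ (u b) x) =
          (conj (chi (θ c)) * chi (θ c)) * (conj (chi (σ b)) * inner ℂ (u b) x) := by ring
      rw [h2, conj_chi_mul, one_mul]
    rw [h1, norm_mul, norm_mul, norm_chi, one_mul, mul_pow, norm_inv, Complex.norm_real,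
      Real.norm_of_nonneg (Real.sqrt_nonneg _), inv_pow, Real.sq_sqrt hs0.le, one_div]

end Pool.Agent.H61.RX
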